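import Mathlib
import Pool.Agent.H29.MackP

namespace Pool.Agent.Results.MP_2b4c46_gt.NotFinest

open Set Filter Topology

/-- `χ` is a character of `(ℤ, τ)`: a continuous homomorphism to `ℝ / ℤ`. -/
def IsChar (τ : TopologicalSpace ℤ) (χ : ℤ →+ AddCircle (1 : ℝ)) : Prop :=
  @Continuous _ _ τ _ χ

/-- Quasi-convex subsets of `(ℤ, τ)`; `‖t‖ ≤ 1 / 4` says that `t` lies in `𝕋₊`. -/
def QC (τ : TopologicalSpace ℤ) (A : Set ℤ) : Prop :=
  ∀ x ∉ A, ∃ χ, IsChar τ χ ∧ (∀ a ∈ A, ‖χ a‖ ≤ 1 / 4) ∧ ¬ ‖χ x‖ ≤ 1 / 4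

/-- Locally quasi-convex topologies. -/
def LQC (τ : TopologicalSpace ℤ) : Prop :=
  ∀ U ∈ @nhds ℤ τ 0, ∃ A ∈ @nhds ℤ τ 0, A ⊆ U ∧ QC τ A

/-- D-sequences. -/
def IsD (b : ℕ → ℕ) : Prop := b 0 = 1 ∧ ∀ n, 0 < b n ∧ b n ∣ b (n + 1) ∧ b n ≠ b (n + 1)

/-- D-sequences whose ratios tend to infinity. -/
def IsDinf (b : ℕ → ℕ) : Prop :=
  IsD b ∧ Tendsto (fun n => (b (n + 1) : ℝ) / b n) atTop atTop

/-- The linear topology `λ_b`, generated by the cosets of the subgroups `b n ℤ`. -/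
def lam (b : ℕ → ℕ) : TopologicalSpace ℤ :=
  TopologicalSpace.generateFrom {S | ∃ (x : ℤ) (n : ℕ), S = {y | (b n : ℤ) ∣ y - x}}

/-- The class of `k / c` in `ℝ / ℤ`. -/
noncomputable def fr (k : ℤ) (c : ℕ) : AddCircle (1 : ℝ) := ((k : ℝ) / c : ℝ)

/-- The topology `τ_b` of uniform convergence on the characters `k ↦ k / b n`, `n ≥ 1`. -/
noncomputable def tau (b : ℕ → ℕ) : TopologicalSpace ℤ :=
  TopologicalSpace.induced (fun k : ℤ => UniformFun.ofFun fun n : ℕ => fr k (b (n + 1)))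
    inferInstance

/-- The supremum `s_b` (an infimum in the order of Mathlib, where finer is smaller). -/
noncomputable def sb (b : ℕ → ℕ) : TopologicalSpace ℤ :=
  ⨅ c : {c : ℕ → ℕ // IsDinf c ∧ lam c = lam b}, tau c.1

/-- Membership in `H_b`. -/
def InH (b : ℕ → ℕ) (x : AddCircle (1 : ℝ)) : Prop := ∃ (k : ℤ) (n : ℕ), x = fr k (b n)

open Pool.Agent.H29.Mack1 Pool.Agent.H29.MackZ Pool.Agent.H29.MackP

lemma fr_smul (m k : ℤ) (c : ℕ) : m • fr k c = fr (m * k) c := by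
  rw [fr, fr, zs]; congr 1; push_cast; ring

lemma fr_eq (k : ℤ) (c : ℕ) : fr k c = k • fr 1 c := by rw [fr_smul, mul_one]

lemma fr_zero {k : ℤ} {c : ℕ} (hc : 0 < c) (h : (c : ℤ) ∣ k) : fr k c = 0 := by
  obtain ⟨t, rfl⟩ := h
  rw [fr, AddCircle.coe_eq_zero_iff]
  have : (c : ℝ) ≠ 0 := by positivity
  exact ⟨t, by push_cast; field_simp; simp⟩

lemma fr_le (k : ℤ) (c : ℕ) : ‖fr k c‖ ≤ |(k : ℝ)| / c := by
  refine (norm_coe_le _).trans (le_of_eq ?_)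
  rw [abs_div, Nat.abs_cast]

lemma tau_grp (c : ℕ → ℕ) : @IsTopologicalAddGroup ℤ (tau c) _ := by
  have := topologicalAddGroup_induced
    (zmultiplesHom (UniformFun ℕ T) (UniformFun.ofFun fun n : ℕ => fr 1 (c (n + 1))))
  have e : (fun k : ℤ => UniformFun.ofFun fun n : ℕ => fr k (c (n + 1))) =
      zmultiplesHom (UniformFun ℕ T) (UniformFun.ofFun fun n : ℕ => fr 1 (c (n + 1))) := by
    funext k n
    exact fr_eq _ _
  rw [tau, e]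
  exact this

lemma tau_nhds (c : ℕ → ℕ) (S : Set ℤ) : S ∈ @nhds ℤ (tau c) 0 ↔
    ∃ k : ℕ, ∀ m, (∀ n, ‖fr m (c (n + 1))‖ ≤ (1 / 2) ^ k) → m ∈ S := by
  rw [tau, nhds_induced, ((UniformFun.hasBasis_nhds_of_basis ℕ T _
    (Metric.uniformity_basis_dist_le_pow (show (0 : ℝ) < 1 / 2 by norm_num)
      (show (1 / 2 : ℝ) < 1 by norm_num))).comap _).mem_iff]
  simp [UniformFun.gen, subset_def, fr]

lemma sb_grp (b : ℕ → ℕ) : @IsTopologicalAddGroup ℤ (sb b) _ :=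
  topologicalAddGroup_iInf fun c => tau_grp c.1

lemma sb_nhds (b : ℕ → ℕ) (S : Set ℤ) (h : S ∈ @nhds ℤ (sb b) 0) :
    ∃ (t : Finset {c : ℕ → ℕ // IsDinf c ∧ lam c = lam b}) (k : ℕ),
      ∀ m, (∀ c ∈ t, ∀ n, ‖fr m (c.1 (n + 1))‖ ≤ (1 / 2) ^ k) → m ∈ S := by
  classical
  rw [sb, nhds_iInf, mem_iInf_finite] at h
  obtain ⟨t, ht⟩ := h
  refine ⟨t, ?_⟩
  induction t using Finset.induction_on generalizing S with
  | empty => exact ⟨0, fun m _ => by simp at ht; simp [ht]⟩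
  | insert c t _ ih =>
    rw [Finset.iInf_insert, mem_inf_iff] at ht
    obtain ⟨A, hA, B, hB, rfl⟩ := ht
    obtain ⟨k, hk⟩ := (tau_nhds _ _).1 hA
    obtain ⟨l, hl⟩ := ih B hB
    exact ⟨k + l, fun m hm => ⟨hk m fun n => (hm c (Finset.mem_insert_self _ _) n).trans
      (half_le (by omega)), hl m fun d hd n => (hm d (Finset.mem_insert_of_mem hd) n).trans
      (half_le (by omega))⟩⟩

/-- powers of two -/
def b2 (n : ℕ) : ℕ := 2 ^ n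

lemma pow2 {c : ℕ → ℕ} (h : lam c = lam b2) (n : ℕ) : ∃ e, c n = 2 ^ e := by
  have key : ∀ U, @IsOpen ℤ (lam b2) U → ∀ x ∈ U, ∃ k : ℕ, ∀ t, x + 2 ^ k * t ∈ U := by
    intro U hU
    induction hU with
    | basic S hS =>
      obtain ⟨y, k, rfl⟩ := hS
      refine fun x hx => ⟨k, fun t => ?_⟩
      have := dvd_add (show ((b2 k : ℕ) : ℤ) ∣ x - y from hx) (dvd_mul_right _ t)
      show ((b2 k : ℕ) : ℤ) ∣ _
      rwa [show x + 2 ^ k * t - y = x - y + ((b2 k : ℕ) : ℤ) * t by simp only [b2]; push_cast; ring]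
    | univ => exact fun _ _ => ⟨0, fun _ => trivial⟩
    | inter S R _ _ h1 h2 =>
      intro x hx
      obtain ⟨k, hk⟩ := h1 x hx.1
      obtain ⟨l, hl⟩ := h2 x hx.2
      exact ⟨k + l, fun t => ⟨by rw [pow_add, mul_assoc]; exact hk _,
        by rw [add_comm k, pow_add, mul_assoc]; exact hl _⟩⟩
    | sUnion S _ ih =>
      rintro x ⟨U, hU, hx⟩
      obtain ⟨k, hk⟩ := ih U hU x hx
      exact ⟨k, fun t => ⟨U, hU, hk t⟩⟩
  obtain ⟨k, hk⟩ := key {y | (c n : ℤ) ∣ y - 0}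
    (h ▸ TopologicalSpace.isOpen_generateFrom_of_mem ⟨0, n, rfl⟩) 0 (by simp)
  have h1 : c n ∣ 2 ^ k := by
    have : (c n : ℤ) ∣ 2 ^ k := by simpa using hk 1
    exact_mod_cast this
  obtain ⟨e, -, he⟩ := (Nat.dvd_prime_pow Nat.prime_two).1 h1
  exact ⟨e, he⟩

lemma sparse {c : ℕ → ℕ} (h : IsDinf c) (w : ℕ) : ∃ j0, ∀ e e' n n', c n = 2 ^ e → c n' = 2 ^ e' →
    j0 ≤ e → e < e' → e + w < e' := by
  have hm : StrictMono c := strictMono_nat_of_lt_succ fun n =>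
    lt_of_le_of_ne (Nat.le_of_dvd (h.1.2 _).1 (h.1.2 n).2.1) (h.1.2 n).2.2
  obtain ⟨n0, h0⟩ := eventually_atTop.1 (h.2.eventually (eventually_gt_atTop ((2 : ℝ) ^ w)))
  refine ⟨c n0, fun e e' n n' h1 h2 h3 h4 => ?_⟩
  have a1 : n0 < n := hm.lt_iff_lt.1 (by rw [h1]; exact lt_of_le_of_lt h3 Nat.lt_two_pow_self)
  have a2 : n < n' := hm.lt_iff_lt.1 (by rw [h1, h2]; exact Nat.pow_lt_pow_right one_lt_two h4)
  have a3 := h0 n a1.le
  rw [lt_div_iff₀ (by exact_mod_cast (h.1.2 n).1)] at a3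
  have a4 : 2 ^ w * c n < c (n + 1) := by exact_mod_cast a3
  have a5 := a4.trans_le (hm.monotone (show n + 1 ≤ n' from a2))
  rw [h1, h2, ← pow_add, Nat.pow_lt_pow_iff_right one_lt_two] at a5
  omega

/-- a sparse subsequence -/
def c0 (n : ℕ) : ℕ := 2 ^ (n * n)

lemma c0_D : IsDinf c0 ∧ lam c0 = lam b2 := by
  refine ⟨⟨⟨rfl, fun n => ⟨by simp [c0], pow_dvd_pow 2 (by nlinarith),
    (Nat.pow_lt_pow_right one_lt_two (by nlinarith)).ne⟩⟩, ?_⟩, le_antisymm ?_ ?_⟩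
  · refine tendsto_atTop_mono (fun n => ?_) (tendsto_pow_atTop_atTop_of_one_lt (one_lt_two (α := ℝ)))
    rw [le_div_iff₀ (by simp [c0])]
    simp only [c0]; push_cast
    rw [← pow_add]; exact pow_le_pow_right₀ (by norm_num) (by nlinarith)
  · refine le_generateFrom ?_
    rintro _ ⟨x, n, rfl⟩
    have : {y | ((b2 n : ℕ) : ℤ) ∣ y - x} =
        ⋃₀ {S | ∃ z, ((b2 n : ℕ) : ℤ) ∣ z - x ∧ S = {y | ((c0 n : ℕ) : ℤ) ∣ y - z}} := by
      ext y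
      constructor
      · exact fun h => ⟨_, ⟨y, h, rfl⟩, by simp⟩
      · rintro ⟨_, ⟨z, h1, rfl⟩, h2⟩
        have h3 : ((b2 n : ℕ) : ℤ) ∣ ((c0 n : ℕ) : ℤ) :=
          Int.natCast_dvd_natCast.2 (pow_dvd_pow 2 (Nat.le_mul_self n))
        have := dvd_add (h3.trans h2) h1
        rwa [sub_add_sub_cancel] at this
    rw [this]
    refine TopologicalSpace.GenerateOpen.sUnion _ ?_
    rintro _ ⟨z, -, rfl⟩
    exact TopologicalSpace.GenerateOpen.basic _ ⟨z, n, rfl⟩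
  · refine le_generateFrom ?_
    rintro _ ⟨x, n, rfl⟩
    exact TopologicalSpace.GenerateOpen.basic _ ⟨x, n * n, rfl⟩

lemma gaps (t : Finset {c : ℕ → ℕ // IsDinf c ∧ lam c = lam b2}) (g : ℕ) :
    ∃ j0 D : ℕ, ∀ j, j0 ≤ j → ∃ a, a ≤ j ∧ j ≤ a + D ∧
      ∀ c ∈ t, ∀ n e, c.1 n = 2 ^ e → e ≤ a ∨ a + g < e := by
  classical
  choose f hf using fun c : {c : ℕ → ℕ // IsDinf c ∧ lam c = lam b2} =>
    sparse c.2.1 ((t.card + 1) * g)
  refine ⟨t.sup f + t.card * g, t.card * g, fun j hj => ?_⟩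
  by_contra! hc
  have h1 : ∀ l : ℕ, l ≤ t.card → ∃ c ∈ t, ∃ n e, c.1 n = 2 ^ e ∧ j - l * g < e ∧ e ≤ j - l * g + g :=
    fun l hl => hc _ (Nat.sub_le _ _) (by have := Nat.mul_le_mul_right g hl; omega)
  have : Nonempty {c : ℕ → ℕ // IsDinf c ∧ lam c = lam b2} := ⟨⟨c0, c0_D⟩⟩
  choose! c hc n e h2 h3 h4 using h1
  have key : ∀ l l', l < l' → l' ≤ t.card → c l ≠ c l' := by
    intro l l' h5 h6 h7
    have a1 := h3 l (by omega)
    have a2 := h4 l (by omega)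
    have a3 := h3 l' h6
    have a4 := h4 l' h6
    have a5 := Nat.mul_le_mul_right g h6
    have a6 := Nat.mul_le_mul_right g (show l + 1 ≤ l' from h5)
    have a7 : f (c l') ≤ t.sup f := Finset.le_sup (hc l' h6)
    rw [add_mul, one_mul] at a6
    have := hf (c l') (e l') (e l) (n l') (n l) (h2 l' h6) (h7 ▸ h2 l (by omega)) (by omega)
      (by omega)
    rw [add_mul, one_mul] at this
    omega
  obtain ⟨l, hl, l', hl', h5, h6⟩ := Finset.exists_ne_map_eq_of_card_lt_of_maps_to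
    (s := Finset.range (t.card + 1)) (t := t) (by simp) (f := c)
    (fun l hl => hc l (by simpa [Nat.lt_succ_iff] using hl))
  simp only [Finset.mem_range] at hl hl'
  rcases lt_or_gt_of_ne h5 with h | h
  · exact key l l' h (by omega) h6
  · exact key l' l h (by omega) h6.symm

lemma pow_small {a e g : ℕ} (h : e ≤ a ∨ a + g < e) (M : ℤ)
    (h1 : ‖fr M (2 ^ e)‖ ≤ 2 * (1 / 2) ^ (g + 1)) (h2 : |(M : ℝ)| ≤ (1 / 2) ^ (g + 1) * 2 ^ a)
    (s : ℤ) (hs : |s| ≤ 1) : ‖fr (M + s * 2 ^ a) (2 ^ e)‖ ≤ 2 * (1 / 2) ^ (g + 1) := by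
  rcases h with h | h
  · rw [fr_eq, add_smul, ← fr_eq, ← fr_eq, fr_zero (k := s * 2 ^ a) (by positivity)
      (Dvd.dvd.mul_left (by exact_mod_cast pow_dvd_pow 2 h) _), add_zero]
    exact h1
  · refine (fr_le _ _).trans ?_
    obtain ⟨d, rfl⟩ := Nat.exists_eq_add_of_lt h
    have hs' : |(s : ℝ)| ≤ 1 := by exact_mod_cast hs
    have a1 : |((M + s * 2 ^ a : ℤ) : ℝ)| ≤ 2 * 2 ^ a := by
      push_cast
      refine (abs_add_le _ _).trans ?_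
      rw [abs_mul, abs_of_pos (show (0 : ℝ) < 2 ^ a by positivity)]
      have : (1 / 2 : ℝ) ^ (g + 1) ≤ 1 := pow_le_one₀ (by norm_num) (by norm_num)
      have : (0 : ℝ) < 2 ^ a := by positivity
      nlinarith
    rw [div_le_iff₀ (by positivity)]
    refine a1.trans ?_
    have a2 : (1 / 2 : ℝ) ^ (g + 1) * 2 ^ (g + 1) = 1 := by rw [← mul_pow]; norm_num
    have a3 : (1 : ℝ) ≤ 2 ^ d := one_le_pow₀ (by norm_num)
    have a4 : ((2 ^ (a + g + d + 1) : ℕ) : ℝ) = 2 ^ (g + 1) * (2 ^ a * 2 ^ d) := by push_cast; ring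
    rw [a4, mul_assoc, ← mul_assoc _ (2 ^ (g + 1)), a2, one_mul]
    have : (0 : ℝ) < 2 ^ a := by positivity
    nlinarith

lemma sgn {x y : T} (hx : ‖x‖ ≤ 1 / 4) (hy : ‖y‖ ≤ 1 / 4) :
    ∃ s : ℤ, |s| ≤ 1 ∧ ‖x + s • y‖ = ‖x‖ + ‖y‖ := by
  have h : ‖((‖x‖ : ℝ) : T) + ((‖y‖ : ℝ) : T)‖ = ‖x‖ + ‖y‖ := by
    rw [← AddCircle.coe_add, (AddCircle.norm_coe_eq_abs_iff (1 : ℝ) one_ne_zero).2] <;>
      rw [abs_of_nonneg (by positivity)]
    simp; linarith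
  rcases rep_pm x with h1 | h1 <;> rcases rep_pm y with h2 | h2
  · exact ⟨1, by simp, by rw [one_smul, ← h, ← h1, ← h2]⟩
  · exact ⟨-1, by simp, by rw [← h, ← h1]; congr 2; rw [neg_smul, one_smul, neg_eq_iff_eq_neg, ← h2]⟩
  · refine ⟨-1, by simp, ?_⟩
    rw [← h, ← h2, ← norm_neg]; congr 1
    conv_lhs => rw [h1]
    simp [add_comm]
  · refine ⟨1, by simp, ?_⟩
    rw [← h, ← norm_neg]; congr 1
    conv_lhs => rw [h1, h2]
    simp [add_comm]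

lemma dyadic {x : T} {k : ℕ} (h : ∀ j, k ≤ j → ‖(2 ^ j : ℤ) • x‖ ≤ 1 / 4) : InH b2 x := by
  have h1 : (2 ^ k : ℕ) • x = 0 := by
    rw [← norm_le_zero_iff]
    refine ge_of_tendsto' (tendsto_pow_atTop_nhds_zero_of_lt_one (r := (1 / 2 : ℝ))
      (by norm_num) (by norm_num)) fun i => nss' i fun l _ => ?_
    have := h (l + k) (by omega)
    rw [smul_smul, ← pow_add, ← natCast_zsmul]; exact_mod_cast this
  obtain ⟨m, -, hm⟩ := (AddCircle.nsmul_eq_zero_iff (by positivity)).1 h1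
  exact ⟨m, k, by rw [← hm, fr, b2]; simp⟩

lemma compat {ψ : T} (h : Ch (@nhds ℤ (sb b2) 0) ψ) : InH b2 ψ := by
  obtain ⟨t, k, hk⟩ := sb_nhds _ _ (h.ev (show (0 : ℝ) < 1 / 4 by norm_num))
  obtain ⟨j0, D, hD⟩ := gaps t k
  by_contra hn
  have h1 : ∀ N, ∃ j, N ≤ j ∧ 1 / 4 < ‖(2 ^ j : ℤ) • ψ‖ := fun N => by
    by_contra! hc; exact hn (dyadic hc)
  have e2 : (2 : ℝ) * (1 / 2) ^ (k + 1) = (1 / 2) ^ k := by rw [pow_succ]; ring
  have h2 : ∀ r : ℕ, ∃ M : ℤ, (∀ c ∈ t, ∀ n, ‖fr M (c.1 (n + 1))‖ ≤ 2 * (1 / 2) ^ (k + 1)) ∧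
      r ≤ 4 * 2 ^ D * ‖M • ψ‖ := by
    intro r
    induction r with
    | zero => exact ⟨0, fun c _ n => by simp [fr], by simp⟩
    | succ r ih =>
      obtain ⟨M, a1, a2⟩ := ih
      obtain ⟨N, hN⟩ := pow_unbounded_of_one_lt (|(M : ℝ)| / (1 / 2) ^ (k + 1)) (one_lt_two (α := ℝ))
      rw [div_lt_iff₀ (by positivity)] at hN
      obtain ⟨j, a3, a4⟩ := h1 (j0 + D + N)
      obtain ⟨a, a5, a6, a7⟩ := hD j (by omega)
      have a8 : |(M : ℝ)| ≤ (1 / 2) ^ (k + 1) * 2 ^ a := by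
        have : (2 : ℝ) ^ N ≤ 2 ^ a := pow_le_pow_right₀ (by norm_num) (by omega)
        have : (0 : ℝ) < (1 / 2) ^ (k + 1) := by positivity
        nlinarith
      have a9 : ‖(2 ^ a : ℤ) • ψ‖ ≤ 1 / 4 := hk _ fun c hc n => by
        obtain ⟨e, he⟩ := pow2 c.2.2 (n + 1)
        have := pow_small (a7 c hc _ e he) 0 (by simp [fr]) (by simp) 1 (by simp)
        rwa [zero_add, one_mul, ← he, e2] at this
      obtain ⟨s, b1, b3⟩ := sgn (hk M fun c hc n => e2 ▸ a1 c hc n) a9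
      refine ⟨M + s * 2 ^ a, fun c hc n => ?_, ?_⟩
      · obtain ⟨e, he⟩ := pow2 c.2.2 (n + 1)
        have := pow_small (a7 c hc _ e he) M (he ▸ a1 c hc n) a8 s b1
        rwa [← he] at this
      · rw [add_smul, mul_smul, b3]
        obtain ⟨d, rfl⟩ := Nat.exists_eq_add_of_le a5
        rw [add_comm a, pow_add, mul_smul] at a4
        have b4 := norm_zs (2 ^ d) ((2 ^ a : ℤ) • ψ)
        have b5 : |((2 ^ d : ℤ) : ℝ)| ≤ 2 ^ D := by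
          push_cast; rw [abs_of_pos (by positivity)]; exact pow_le_pow_right₀ (by norm_num) (by omega)
        have b6 := mul_le_mul_of_nonneg_right b5 (norm_nonneg ((2 ^ a : ℤ) • ψ))
        push_cast; linarith
  obtain ⟨M, -, a2⟩ := h2 (4 * 2 ^ D)
  have a3 := norm_le_half (M • ψ)
  have : (0 : ℝ) < 2 ^ D := by positivity
  push_cast at a2
  nlinarith

lemma Ch.zs' {F : Filter ℤ} {x : T} (h : Ch F x) (u : ℤ) : Ch F (u • x) := by
  have := h.const_smul u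
  rw [smul_zero] at this
  exact this.congr fun m => smul_comm _ _ _

lemma compat' {x : T} (h : InH b2 x) : Ch (@nhds ℤ (sb b2) 0) x := by
  obtain ⟨k, n, rfl⟩ := h
  have h1 : Ch (@nhds ℤ (tau c0) 0) (fr 1 (c0 (n + 1))) := by
    refine Metric.tendsto_nhds.2 fun ε hε => ?_
    obtain ⟨j, hj⟩ := exists_pow_lt_of_lt_one hε (show (1 / 2 : ℝ) < 1 by norm_num)
    exact (tau_nhds _ _).2 ⟨j, fun m hm => by
      rw [mem_ofPred_eq, dist_zero_right, ← fr_eq]; exact (hm n).trans_lt hj⟩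
  have h2 : fr k (b2 n) = (k * 2 ^ (n * n + n + 1)) • fr 1 (c0 (n + 1)) := by
    rw [fr_smul, fr, fr, b2, c0]; congr 1
    rw [show (n + 1) * (n + 1) = n + (n * n + n + 1) by ring]
    push_cast; rw [pow_add _ n]; field_simp
  rw [h2]
  have h3 : sb b2 ≤ tau c0 :=
    iInf_le (fun c : {c : ℕ → ℕ // IsDinf c ∧ lam c = lam b2} => tau c.1) ⟨c0, c0_D⟩
  exact (Ch.zs' h1 _).mono_left (nhds_mono h3)

/-- the two-adic filter -/
def F2 : Filter ℤ where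
  sets := {U | ∃ k : ℕ, ∀ t, 2 ^ k * t ∈ U}
  univ_sets := ⟨0, fun _ => trivial⟩
  sets_of_superset := fun ⟨k, hk⟩ h => ⟨k, fun t => h (hk t)⟩
  inter_sets := fun ⟨k, hk⟩ ⟨l, hl⟩ => ⟨k + l, fun t => ⟨by rw [pow_add, mul_assoc]; exact hk _,
    by rw [add_comm k, pow_add, mul_assoc]; exact hl _⟩⟩

lemma F2_GF : GF F2 := by
  refine ⟨fun U ⟨k, hk⟩ => by simpa using hk 0, fun U ⟨k, hk⟩ => ?_⟩
  refine mem_map.2 (mem_prod_iff.2 ⟨range (2 ^ k * ·), ⟨k, fun t => ⟨t, rfl⟩⟩, range (2 ^ k * ·),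
    ⟨k, fun t => ⟨t, rfl⟩⟩, ?_⟩)
  rintro ⟨_, _⟩ ⟨⟨s, rfl⟩, ⟨t, rfl⟩⟩
  simpa [mul_sub] using hk (s - t)

lemma F2_gap : ∀ U ∈ F2, ∃ g, Gap U g := by
  rintro U ⟨k, hk⟩
  refine ⟨2 ^ k, fun a => ⟨_, hk (a / 2 ^ k + 1), ?_⟩⟩
  have h1 := Int.mul_ediv_add_emod a (2 ^ k)
  have h2 := Int.emod_nonneg a (show (2 : ℤ) ^ k ≠ 0 by positivity)
  have h3 := Int.emod_lt_of_pos a (show (0 : ℤ) < 2 ^ k by positivity)
  push_cast; rw [mul_add]; omega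

lemma F2_ch (x : T) : Ch F2 x ↔ InH b2 x := by
  constructor
  · intro h
    obtain ⟨k, hk⟩ := h.ev (show (0 : ℝ) < 1 / 4 by norm_num)
    refine dyadic (k := k) fun j hj => ?_
    obtain ⟨d, rfl⟩ := Nat.exists_eq_add_of_le hj
    rw [pow_add]; exact hk _
  · rintro ⟨k, n, rfl⟩
    refine tendsto_const_nhds.congr' ⟨n, fun t => ?_⟩
    show 0 = (2 ^ n * t) • fr k (b2 n)
    rw [fr_smul, fr_zero (by simp [b2]) (by simp [b2, mul_assoc])]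

/-- the extra requirement on the sequence -/
def PP (n : ℕ) (x : T) : Prop := (∃ u : ℤ, u • x = fr 1 (b2 n)) ∧
  ∃ N, n ≤ N ∧ ∀ a, N ≤ a → a ≤ N + n → 1 / 4 < ‖(2 ^ a : ℤ) • x‖

lemma third (i : ℕ) : 1 / 3 ≤ ‖(((2 : ℝ) ^ i / 3 : ℝ) : T)‖ := by
  have h : ‖((1 / 3 : ℝ) : T)‖ = 1 / 3 := by
    rw [(AddCircle.norm_coe_eq_abs_iff (1 : ℝ) one_ne_zero).2] <;> norm_num
  have key : (((2 : ℝ) ^ i / 3 : ℝ) : T) = ((1 / 3 : ℝ) : T) ∨
      (((2 : ℝ) ^ i / 3 : ℝ) : T) = -((1 / 3 : ℝ) : T) := by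
    have h3 : ((1 / 3 : ℝ) : T) + ((1 / 3 : ℝ) : T) = -((1 / 3 : ℝ) : T) := by
      rw [eq_neg_iff_add_eq_zero, ← AddCircle.coe_add, ← AddCircle.coe_add,
        AddCircle.coe_eq_zero_iff]
      exact ⟨1, by norm_num⟩
    induction i with
    | zero => left; norm_num
    | succ i ih =>
      rw [show (2 : ℝ) ^ (i + 1) / 3 = 2 ^ i / 3 + 2 ^ i / 3 by ring, AddCircle.coe_add]
      rcases ih with h | h <;> rw [h]
      · exact Or.inr h3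
      · left; rw [← neg_add, h3, neg_neg]
  rcases key with e | e <;> rw [e] <;> simp only [norm_neg, h, le_refl]

lemma small (n : ℕ) (δ : ℝ) (hδ : δ > 0) : ∃ x : T, PP n x ∧ Ch F2 x ∧ x ≠ 0 ∧ ‖x‖ ≤ δ := by
  obtain ⟨N0, h0⟩ := exists_pow_lt_of_lt_one hδ (show (1 / 2 : ℝ) < 1 by norm_num)
  obtain ⟨v, hv⟩ : (3 : ℤ) ∣ 4 ^ (n + 2) - 1 := by simpa using sub_dvd_pow_sub_pow (4 : ℤ) 1 (n + 2)
  have hv' : (v : ℝ) = (4 ^ (n + 2) - 1) / 3 := by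
    have : (4 : ℝ) ^ (n + 2) - 1 = 3 * v := by exact_mod_cast hv
    linarith
  have e4 : (4 : ℝ) ^ (n + 2) = 16 * (2 ^ n * 2 ^ n) := by rw [← mul_pow, pow_add]; norm_num; ring
  set N := N0 + n
  have big : ∀ a, N ≤ a → a ≤ N + n → 1 / 4 < ‖(2 ^ a : ℤ) • fr v (b2 (N + 2 * n + 4))‖ := by
    intro a h1 h2
    obtain ⟨i, rfl⟩ := Nat.exists_eq_add_of_le h1
    have h3 : (2 ^ (N + i) : ℤ) • fr v (b2 (N + 2 * n + 4)) =
        (((2 : ℝ) ^ i / 3 : ℝ) : T) - (((2 : ℝ) ^ i / (48 * (2 ^ n * 2 ^ n)) : ℝ) : T) := by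
      rw [fr_smul, fr, b2, ← AddCircle.coe_sub]; congr 1
      push_cast; rw [hv', e4]; field_simp; ring
    have h4 := norm_coe_le ((2 : ℝ) ^ i / (48 * (2 ^ n * 2 ^ n)))
    have h5 : |(2 : ℝ) ^ i / (48 * (2 ^ n * 2 ^ n))| ≤ 1 / 48 := by
      rw [abs_of_pos (by positivity), div_le_div_iff₀ (by positivity) (by positivity)]
      have a1 : (2 : ℝ) ^ i ≤ 2 ^ n := pow_le_pow_right₀ (by norm_num) (by omega)
      have a2 : (1 : ℝ) ≤ 2 ^ n := one_le_pow₀ (by norm_num)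
      nlinarith
    rw [h3]
    linarith [third i, norm_sub_norm_le (((2 : ℝ) ^ i / 3 : ℝ) : T)
      (((2 : ℝ) ^ i / (48 * (2 ^ n * 2 ^ n)) : ℝ) : T)]
  refine ⟨fr v (b2 (N + 2 * n + 4)), ⟨⟨-3 * 2 ^ (N + n + 4), ?_⟩, N, by omega, big⟩,
    (F2_ch _).2 ⟨_, _, rfl⟩, fun h => ?_, (fr_le _ _).trans (le_trans ?_ h0.le)⟩
  · rw [fr_smul, fr, fr, b2, b2, ← sub_eq_zero, ← AddCircle.coe_sub, AddCircle.coe_eq_zero_iff]
    refine ⟨-16 * 2 ^ n, ?_⟩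
    simp only [zsmul_eq_mul]
    push_cast; rw [hv', e4]; field_simp; ring
  · have := big N le_rfl (by omega)
    rw [h] at this; norm_num at this
  · have a2 : (1 : ℝ) ≤ 2 ^ n := one_le_pow₀ (by norm_num)
    have a3 : (1 / 2 : ℝ) ^ N0 * 2 ^ N0 = 1 := by rw [← mul_pow]; norm_num
    have a4 : ((b2 (N + 2 * n + 4) : ℕ) : ℝ) = 2 ^ N0 * (2 ^ n * (16 * (2 ^ n * 2 ^ n))) := by
      simp only [b2, N]; push_cast; ring
    rw [a4, div_le_iff₀ (by positivity), ← mul_assoc, a3, hv', e4, abs_of_nonneg (by nlinarith)]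
    nlinarith

theorem result : ∃ b : ℕ → ℕ, IsD b ∧ (∀ χ, IsChar (sb b) χ ↔ InH b (χ 1)) ∧
    ∃ σ : TopologicalSpace ℤ, @IsTopologicalAddGroup ℤ σ _ ∧ LQC σ ∧
      (∀ χ, IsChar σ χ ↔ InH b (χ 1)) ∧ ¬ sb b ≤ σ := by
  refine ⟨b2, ⟨rfl, fun n => ⟨by simp [b2], pow_dvd_pow 2 (by omega),
    (Nat.pow_lt_pow_right one_lt_two (by omega)).ne⟩⟩, fun χ =>
    (Pool.Agent.H29.Mack3.isChar_iff (sb_grp _) χ).trans ⟨compat, compat'⟩, ?_⟩
  obtain ⟨X, hP, hX, -, -, hX2⟩ := coreP F2_GF F2_gap small (p := fun _ => 0)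
    ⟨by simp, by simp, fun ε hε => Eventually.of_forall fun _ => hε.le⟩ rfl
  let Φ : ℤ →+ BoundedContinuousFunction ℕ T := zmultiplesHom _
    (BoundedContinuousFunction.ofNormedAddCommGroupDiscrete X (1 / 2) fun j => norm_le_half _)
  have hΦ : ∀ m j, Φ m j = m • X j := fun m j => by simp [Φ]
  have hΦn : ∀ m r, 0 ≤ r → (‖Φ m‖ ≤ r ↔ ∀ j, ‖m • X j‖ ≤ r) := fun m r hr => by
    rw [BoundedContinuousFunction.norm_le hr]; simp only [hΦ]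
  let ρ : TopologicalSpace ℤ := TopologicalSpace.induced Φ inferInstance
  have hρ : @IsTopologicalAddGroup ℤ ρ _ := topologicalAddGroup_induced Φ
  have hρn : ∀ S, S ∈ @nhds ℤ ρ 0 ↔ ∃ k : ℕ, ∀ m, (∀ j, ‖m • X j‖ ≤ (1 / 2) ^ k) → m ∈ S := by
    intro S
    rw [nhds_induced, map_zero, mem_comap]
    constructor
    · rintro ⟨t, ht, hS⟩
      obtain ⟨ε, hε, h⟩ := Metric.mem_nhds_iff.1 ht
      obtain ⟨k, hk⟩ := exists_pow_lt_of_lt_one hε (show (1 / 2 : ℝ) < 1 by norm_num)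
      exact ⟨k, fun m hm => hS (h (mem_ball_zero_iff.2
        (((hΦn m _ (by positivity)).2 hm).trans_lt hk)))⟩
    · rintro ⟨k, hk⟩
      exact ⟨_, Metric.closedBall_mem_nhds 0 (show (0 : ℝ) < (1 / 2) ^ k by positivity),
        fun m hm => hk m ((hΦn m _ (by positivity)).1 (mem_closedBall_zero_iff.1 hm))⟩
  have hXρ : ∀ j, Ch (@nhds ℤ ρ 0) (X j) := fun j => Metric.tendsto_nhds.2 fun ε hε => by
    obtain ⟨k, hk⟩ := exists_pow_lt_of_lt_one hε (show (1 / 2 : ℝ) < 1 by norm_num)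
    exact (hρn _).2 ⟨k, fun m hm => by
      rw [mem_ofPred_eq, dist_zero_right]; exact (hm j).trans_lt hk⟩
  refine ⟨ρ, hρ, fun B hB => ?_, fun χ => (Pool.Agent.H29.Mack3.isChar_iff hρ χ).trans
    ⟨fun h => ?_, ?_⟩, fun hle => ?_⟩
  · obtain ⟨k, hk⟩ := (hρn B).1 hB
    refine ⟨{m | ∀ j, ∀ i ≤ k, ‖(2 ^ i : ℕ) • m • X j‖ ≤ 1 / 4},
      (hρn _).2 ⟨k + 2, fun m hm j i hi => ?_⟩,
      fun m hm => hk m fun j => nss' k (hm j), fun x hx => ?_⟩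
    · refine (norm_nsmul_le).trans ?_
      have h4 : ((2 ^ i : ℕ) : ℝ) ≤ 2 ^ k := by
        push_cast; exact pow_le_pow_right₀ (by norm_num) hi
      refine (mul_le_mul h4 (hm j) (norm_nonneg _) (by positivity)).trans (le_of_eq ?_)
      rw [pow_add, ← mul_assoc, ← mul_pow]; norm_num
    · have : ¬ ∀ j, ∀ i ≤ k, ‖(2 ^ i : ℕ) • x • X j‖ ≤ 1 / 4 := hx
      push Not at this
      obtain ⟨j, i, hi, h4⟩ := this
      have e : ∀ m : ℤ, zmultiplesHom T ((2 ^ i : ℕ) • X j) m = (2 ^ i : ℕ) • m • X j :=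
        fun m => by rw [zmultiplesHom_apply, smul_comm]
      refine ⟨zmultiplesHom T ((2 ^ i : ℕ) • X j), (Pool.Agent.H29.Mack3.isChar_iff hρ _).2 ?_,
        fun a ha => by rw [e]; exact ha j i hi, by rw [e]; exact not_le.2 h4⟩
      rw [e, one_smul, ← natCast_zsmul]
      exact Ch.zs' (hXρ j) _
  · obtain ⟨k, hk⟩ := (hρn _).1 (h.ev (show (0 : ℝ) < 1 / 16 by norm_num))
    exact (F2_ch _).1 (hX2 _ k fun m _ hm => hk m hm)
  · rintro ⟨k, n, h⟩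
    obtain ⟨u, hu⟩ := (hP n).1
    rw [h, fr_eq, ← hu]
    exact Ch.zs' (Ch.zs' (hXρ n) _) _
  · obtain ⟨t, k, hk⟩ := sb_nhds b2 {m | ∀ j, ‖m • X j‖ ≤ (1 / 2) ^ 2}
      (nhds_mono hle ((hρn _).2 ⟨2, fun m hm => hm⟩))
    obtain ⟨j0, D, hD⟩ := gaps t k
    obtain ⟨N, h1, h2⟩ := (hP (j0 + D)).2
    obtain ⟨a, a1, a2, a3⟩ := hD (N + (j0 + D)) (by omega)
    have h3 := hk (2 ^ a) (fun c hc n => by
      obtain ⟨e, he⟩ := pow2 c.2.2 (n + 1)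
      have := pow_small (a3 c hc _ e he) 0 (by simp [fr]) (by simp) 1 (by simp)
      rw [zero_add, one_mul, ← he, pow_succ] at this
      linarith) (j0 + D)
    have h4 := h2 a (by omega) a1
    norm_num at h3
    linarith

end Pool.Agent.Results.MP_2b4c46_gt.NotFinest
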